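import Pool.Agent.H6.FI.TargetsA

/-!
# Stabilisers of sets in primitive solvable permutation groups
-/

open scoped Classical

namespace Pool.Agent.H11.FI

open _root_.FI

theorem pf_AF3 : T_AF3 := by
  intro R _ _ H N p k hS hp hk hB
  have hN : N.Normal := hS.nor
  have hH0 : 0 < Nat.card H := Nat.card_pos
  refine ⟨?_, fun A hA hcA => ?_⟩
  · -- the index of `H`
    have h1 : Nat.card H * H.index = Nat.card R := H.card_mul_index
    have h2 : Nat.card N * N.index = Nat.card R := N.card_mul_index
    have h3 : N.index = N.relIndex H := by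
      have h4 := Subgroup.relIndex_sup_left (H := H) (K := N)
      rw [hS.sup, Subgroup.relIndex_top_right] at h4
      exact h4
    have h5 : Nat.card H.normalCore * H.normalCore.relIndex N = Nat.card N := by
      have h6 := Subgroup.relIndex_mul_relIndex ⊥ H.normalCore N bot_le hS.le
      rwa [Subgroup.relIndex_bot_left, Subgroup.relIndex_bot_left] at h6
    have h7 : Nat.card H.normalCore * N.relIndex H = Nat.card H := by
      have h6 := Subgroup.relIndex_mul_relIndex ⊥ (N ⊓ H) H bot_le inf_le_right
      rwa [Subgroup.relIndex_bot_left, Subgroup.relIndex_bot_left, Subgroup.inf_relIndex_right,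
        hS.inf] at h6
    apply Nat.eq_of_mul_eq_mul_left hH0
    rw [h1, ← h2, h3, ← h5, ← hB, ← h7]
    ring
  · obtain ⟨c₀, hc₀⟩ := hA
    obtain ⟨c₁, hc₁⟩ := hcA
    have hBS : H.normalCore ≤ StA A := by
      intro b hb
      rw [mem_StA]
      intro c
      have h1 : b • c = c := by
        induction c using QuotientGroup.induction_on with
        | H g =>
          change ((b * g : R) : R ⧸ H) = (g : R ⧸ H)
          rw [eq_comm, QuotientGroup.eq]
          have h2 := (inferInstance : H.normalCore.Normal).conj_mem b hb g⁻¹
          rw [inv_inv] at h2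
          have h3 := H.normalCore_le h2
          rwa [mul_assoc] at h3
      rw [h1]
    obtain ⟨L, hL⟩ : ∃ L : Subgroup R, L = StA A ⊓ N := ⟨_, rfl⟩
    have hBL : H.normalCore ≤ L := by
      rw [hL]
      exact le_inf hBS hS.le
    have hLN : L ≤ N := by
      rw [hL]
      exact inf_le_right
    have hmul := Subgroup.relIndex_mul_relIndex H.normalCore L N hBL hLN
    rw [hB] at hmul
    obtain ⟨j, hjk, hj⟩ := (Nat.dvd_prime_pow hp).1 (Dvd.intro _ hmul)
    have hrest : L.relIndex N = p ^ (k - j) := by
      rw [hj] at hmul
      apply Nat.eq_of_mul_eq_mul_left (pow_pos hp.pos j)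
      rw [hmul, ← pow_add]
      congr 1
      omega
    have hne : j ≠ k := by
      intro h
      rw [h, Nat.sub_self, pow_zero, Subgroup.relIndex_eq_one] at hrest
      have hNS : N ≤ StA A := hrest.trans (by rw [hL]; exact inf_le_left)
      apply hc₁
      induction c₀ using QuotientGroup.induction_on with
      | H g =>
        induction c₁ using QuotientGroup.induction_on with
        | H g' =>
          have h1 : g⁻¹ * g' ∈ N ⊔ H := by rw [hS.sup]; exact Subgroup.mem_top _
          obtain ⟨m, hm, h, hh, hmh⟩ := Subgroup.mem_sup_of_normal_left.1 h1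
          have h2 : g * m * g⁻¹ ∈ N := hN.conj_mem m hm g
          have h3 : ((g' : R) : R ⧸ H) = (g * m * g⁻¹) • (g : R ⧸ H) := by
            change ((g' : R) : R ⧸ H) = ((g * m * g⁻¹ * g : R) : R ⧸ H)
            rw [eq_comm, QuotientGroup.eq]
            have h4 : (g * m * g⁻¹ * g)⁻¹ * g' = h := by
              have h5 : g' = g * (m * h) := by rw [hmh]; group
              rw [h5]
              group
            rw [h4]
            exact hh
          rw [h3]
          exact (mem_StA.1 (hNS h2) _).2 hc₀
    have hcard : p ^ j ≤ A.card := by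
      have h1 : H.normalCore.subgroupOf L = MulAction.stabilizer L c₀ := by
        induction c₀ using QuotientGroup.induction_on with
        | H g =>
          ext n
          rw [Subgroup.mem_subgroupOf, MulAction.mem_stabilizer_iff]
          have h2 : (n • (g : R ⧸ H) = (g : R ⧸ H)) ↔ g⁻¹ * n.1 * g ∈ H := by
            change ((n.1 * g : R) : R ⧸ H) = (g : R ⧸ H) ↔ _
            rw [eq_comm, QuotientGroup.eq, mul_assoc]
          rw [h2]
          constructor
          · intro hn
            have h3 := (inferInstance : H.normalCore.Normal).conj_mem n.1 hn g⁻¹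
            rw [inv_inv] at h3
            exact H.normalCore_le h3
          · intro hn
            have h3 : g⁻¹ * n.1 * g ∈ N := by
              have h4 := hN.conj_mem n.1 (hLN n.2) g⁻¹
              rwa [inv_inv] at h4
            have h5 : g⁻¹ * n.1 * g ∈ H.normalCore := by
              rw [← hS.inf]
              exact ⟨h3, hn⟩
            have h6 := (inferInstance : H.normalCore.Normal).conj_mem _ h5 g
            have h7 : g * (g⁻¹ * n.1 * g) * g⁻¹ = n.1 := by group
            rwa [h7] at h6
      rw [← hj, Subgroup.relIndex, h1, MulAction.index_stabilizer, ← Set.ncard_coe_finset]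
      refine Set.ncard_le_ncard ?_ A.finite_toSet
      rintro c ⟨n, rfl⟩
      have h2 : n.1 ∈ StA A := (hL.le n.2).1
      exact (mem_StA.1 h2 c₀).2 hc₀
    refine ⟨j, lt_of_le_of_ne hjk hne, hcard, ?_⟩
    have h1 : (StA A).relIndex N = L.relIndex N := by
      rw [hL, Subgroup.inf_relIndex_right]
    rw [← hrest, ← h1, ← Subgroup.relIndex_top_right]
    refine Subgroup.relIndex_le_of_le_right le_top ?_
    rw [Subgroup.relIndex_top_right]
    exact Subgroup.index_ne_zero_of_finite

end Pool.Agent.H11.FI
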