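import Pool.Agent.H6.FI.TargetsA

/-!
# Complete reducibility of invariant subgroups
-/

open scoped Classical

namespace Pool.Agent.H11.FI

open _root_.FI

theorem pf_CRW : T_CRW := by
  intro R V _ _ ρ B W X hCR hXW hX Y hYX hY
  obtain ⟨Y', h1, h2, h3, h4⟩ := hCR Y (hYX.trans hXW) hY
  refine ⟨Y' ⊓ X, inf_le_right, fun r hr w hw => ⟨h2 r hr w hw.1, hX r hr w hw.2⟩, ?_, ?_⟩
  · rw [← inf_assoc, h3, bot_inf_eq]
  · rw [← sup_inf_assoc_of_le Y' hYX, h4, inf_of_le_right hXW]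

end Pool.Agent.H11.FI
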