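import Pool.Agent.H6.FI.TargetsC
import Pool.Agent.H6.FI.Lib

/-!
# Degrees of characters over an invariant character
-/

open scoped Classical ComplexConjugate

namespace Pool.Agent.H11.FI

open _root_.FI AMc AMt

theorem pf_DGL : T_DGL := by
  intro Γ _ _ K M hKM
  have hpos : ∀ θ ∈ IrrS K, ∃ d : ℕ, 0 < d ∧ θ 1 = d := fun θ hθ =>
    (_root_.FI.Lib.lS1 Γ K θ hθ).2.2.1
  refine ⟨fun θ hθ => ?_, fun θ hθ φ hφ hov => ?_⟩
  · obtain ⟨d, hd, h1⟩ := hpos θ hθ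
    rw [h1, Complex.natCast_re]
    exact_mod_cast hd
  · obtain ⟨d, hd, h1⟩ := hpos θ hθ
    obtain ⟨a, t, ha, ht, -, h2, -⟩ := _root_.FI.Lib.lE3 Γ K M hKM.le hKM.nor φ hφ θ hθ hov
    have h3 : φ 1 = ((a * t * d : ℕ) : ℂ) := by
      rw [h2, h1]
      push_cast
      ring
    rw [h3, h1, Complex.natCast_re, Complex.natCast_re]
    have h4 : d ≤ a * t * d := Nat.le_mul_of_pos_left d (Nat.mul_pos ha ht)
    exact_mod_cast h4

end Pool.Agent.H11.FI
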